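import Pool.Agent.MP_ca0a54_nt.H29.Spec
import Pool.Agent.MP_ca0a54_nt.H79.S1
import Pool.Agent.MP_ca0a54_nt.H3.AR2
import Pool.Agent.MP_ca0a54_nt.H88.AR1
import Pool.Agent.MP_ca0a54_nt.H62.KAR
import Pool.Agent.MP_ca0a54_nt.H1.RL

/-! Row S2: a lower bound for the imaginary part of the diagonal sum. -/

open Complex MeasureTheory Filter Topology Finset

namespace Pool.Agent.MP_ca0a54_nt.H9

open Pool.Agent.MP_ca0a54_nt Pool.Agent.MP_ca0a54_nt.L0 Pool.Agent.MP_ca0a54_nt.H24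
  Pool.Agent.MP_ca0a54_nt.H29 Pool.Agent.MP_ca0a54_nt.H3 Pool.Agent.MP_ca0a54_nt.H79

/-! ### Arithmetic with `ab ≤ 4` -/

theorem divs4 {L ab : ℝ} {M n : ℕ} (hL : 1 ≤ L) (h0 : 0 ≤ ab) (h1 : ab ≤ 4)
    (hM : Real.log M ≤ L) (hn : n ≤ M) :
    ∑ p ∈ n.divisorsAntidiagonal, ‖rc 0 (I * (ab / L : ℝ)) p.1‖ ≤ Real.exp 4 := by
  refine (divs H88.ar1 (div_nonneg h0 (by linarith)) n).trans (Real.exp_le_exp.2 ?_)
  have hl : Real.log n ≤ L := by
    rcases Nat.eq_zero_or_pos n with rfl | hn0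
    · simp; linarith
    · exact (Real.log_le_log (by exact_mod_cast hn0) (by exact_mod_cast hn)).trans hM
  have : ab / L * Real.log n ≤ ab := by
    rw [div_mul_eq_mul_div, div_le_iff₀ (by linarith)]
    exact mul_le_mul_of_nonneg_left hl h0
  linarith

theorem bsum4 {L ab : ℝ} {M : ℕ} (hL : 1 ≤ L) (h0 : 0 ≤ ab) (h1 : ab ≤ 4)
    (hM : Real.log M ≤ L) :
    ∑ k ∈ Icc 1 M, ‖rc 0 (I * (ab / L : ℝ)) k‖ / k ≤ Real.exp 7 * 10 := by
  have hL0 : 0 < L := by linarith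
  have hb := bsum H88.ar1 (a := ab / L) (y := 7 / L) (by positivity)
    (div_lt_div_of_pos_right (by linarith) hL0) M
  have e : 7 / L * (1 + 1 / (7 / L - ab / L)) = 7 / L + 7 / (7 - ab) := by
    have : (7 : ℝ) - ab ≠ 0 := by linarith
    field_simp
  have b1 : 7 / L ≤ 7 := by rw [div_le_iff₀ hL0]; linarith
  have b2 : 7 / (7 - ab) ≤ 3 := by rw [div_le_iff₀ (by linarith)]; linarith
  rw [e] at hb
  refine le_trans ?_ (mul_le_mul_of_nonneg_left (hb.trans (by linarith)) (Real.exp_pos 7).le)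
  rw [Finset.mul_sum]
  refine Finset.sum_le_sum fun n hn => ?_
  have h1 := inv_le_ee hL (c := 7) (by norm_num) hM hn
  rw [div_eq_mul_one_div, mul_left_comm]
  exact mul_le_mul_of_nonneg_left h1 (norm_nonneg _)

theorem gsum4 {L Y ab : ℝ} (hY : 7 ≤ Y) (hL : Y ^ 2 ≤ L) (h0 : 0 ≤ ab) (h1 : ab ≤ 4) (M : ℕ) :
    ∑ k ∈ Icc 1 M, ‖rc (Y / L : ℝ) ((Y / L : ℝ) + I * (ab / L : ℝ)) k‖ / k ≤ 3 := by
  have hL0 : 0 < L := by nlinarith
  have hb := bsum H88.ar1 (a := ab / L) (y := Y / L) (by positivity)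
    (div_lt_div_of_pos_right (by linarith) hL0) M
  have e : Y / L * (1 + 1 / (Y / L - ab / L)) = 1 + (Y / L + ab / (Y - ab)) := by
    have : Y - ab ≠ 0 := by linarith
    field_simp
    ring
  have b1 : Y / L ≤ 1 / 2 := by rw [div_le_div_iff₀ hL0 (by linarith)]; nlinarith
  have b2 : ab / (Y - ab) ≤ 3 / 2 := by
    rw [div_le_div_iff₀ (by linarith) (by linarith)]; nlinarith
  rw [e] at hb
  refine le_trans (le_of_eq ?_) (hb.trans (by linarith))
  refine Finset.sum_congr rfl fun k hk => ?_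
  rw [gam_eq H88.ar1, ee_add, ee_one (by have := (mem_Icc.1 hk).1; omega)]
  ring

theorem cv_le {L ab X : ℝ} {M n : ℕ} {r : ℕ → ℂ} (hL : 1 ≤ L) (h0 : 0 ≤ ab) (h1 : ab ≤ 4)
    (hM : Real.log M ≤ L) (hn : n ≤ M) (hX : 0 ≤ X) (hr : ∀ j, 1 ≤ j → j ≤ n → ‖r j‖ ≤ X) :
    ‖cv (rc 0 (I * (ab / L : ℝ))) r n‖ ≤ Real.exp 4 * X := by
  refine (norm_cv_le _ _ n).trans
    (le_trans ?_ (mul_le_mul_of_nonneg_right (divs4 hL h0 h1 hM hn) hX))
  rw [Finset.sum_mul]
  refine Finset.sum_le_sum fun p hp => mul_le_mul_of_nonneg_left ?_ (norm_nonneg _)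
  have h2 := Nat.snd_mem_divisors_of_mem_antidiagonal hp
  exact hr _ (Nat.pos_of_mem_divisors h2) (Nat.divisor_le h2)

theorem part3w {L ab : ℝ} {N M : ℕ} {r : ℕ → ℂ} (hL : 1 ≤ L) (h0 : 0 ≤ ab) (h1 : ab ≤ 4)
    (hM : Real.log M ≤ L) {W τ : ℝ} (hW : ∀ x : ℝ, 0 < x → ∑ n ∈ win N x τ, ‖r n‖ ^ 2 / n ≤ W)
    {x : ℝ} (hx : 0 < x) :
    ∑ n ∈ win M x τ, ‖cv (rc 0 (I * (ab / L : ℝ))) (cut r N) n‖ ^ 2 / n ≤
      Real.exp 4 * (Real.exp 7 * 10 * W) := by
  have hW0 : 0 ≤ W := (Finset.sum_nonneg fun _ _ => by positivity).trans (hW 1 one_pos)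
  refine (cv_sq_sum _ _ _ M (win_sub M x τ) (Real.exp 4) W
    (Real.exp_pos _).le (fun n hn => ?_) fun k hk => ?_).trans ?_
  · exact divs4 hL h0 h1 hM (mem_Icc.1 (win_sub M x τ hn)).2
  · have hk0 : (0 : ℝ) < k := by exact_mod_cast (mem_Icc.1 hk).1
    refine le_trans ?_ (hW (x / k) (by positivity))
    rw [← Finset.sum_filter_of_ne (p := fun j => j ≤ N) (fun j _ hj => by
      by_contra hc
      simp [cut, hc] at hj)]
    rw [Finset.sum_congr rfl (g := fun j => ‖r j‖ ^ 2 / j) fun j hj => by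
      simp [cut, (mem_filter.1 hj).2]]
    refine Finset.sum_le_sum_of_subset_of_nonneg (fun j hj => ?_) fun _ _ _ => by positivity
    simp only [mem_filter, mem_Icc] at hj
    exact mem_win hk hj.1.1.1 hj.2 hj.1.2
  · refine mul_le_mul_of_nonneg_left ?_ (Real.exp_pos _).le
    exact mul_le_mul_of_nonneg_right (bsum4 hL h0 h1 hM) hW0

theorem part4w {L Y ab : ℝ} (hY : 7 ≤ Y) (hL : Y ^ 2 ≤ L) (h0 : 0 ≤ ab) (h1 : ab ≤ 4) :
    (∀ M : ℕ, ∑ n ∈ Icc 1 M, ‖rc (Y / L : ℝ) (I * (ab / L : ℝ)) n‖ * ee (1 + 1 / L) n ≤ 12 * Y) ∧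
    ∀ (M : ℕ) (W τ : ℝ),
      (∀ x : ℝ, 0 < x → ∑ n ∈ win M x τ, (rc 0 (Y / L : ℝ) n).re / n ≤ W) → ∀ x : ℝ, 0 < x →
      ∑ n ∈ win M x τ, ‖rc (Y / L : ℝ) (I * (ab / L : ℝ)) n‖ / n ≤ 3 * W := by
  have h := H88.ar1
  have hL1 : 1 ≤ L := by nlinarith
  have hy : 0 ≤ Y / L := by positivity
  have hv : ∀ j, ‖rc (Y / L : ℝ) 0 j * np (I * (ab / L : ℝ)) j‖ ≤ (rc 0 (Y / L : ℝ) j).re := by
    intro j
    rw [norm_mul, norm_np_I, mul_one]
    exact (h.2.2.2.2.1 (Y / L) j hy).1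
  refine ⟨fun M => ?_, fun M W τ hW x hx => ?_⟩
  · simp only [fact h]
    refine (cv_sum _ _ _ _ M (Finset.Subset.refl _) (4 * Y) fun k _ => ?_).trans ?_
    · refine le_trans ?_ (phisum' h hL1 (by linarith) M)
      exact le_trans (Finset.sum_le_sum_of_subset_of_nonneg (Finset.filter_subset _ _)
        fun _ _ _ => mul_nonneg (norm_nonneg _) (ee_pos _ _).le)
        (Finset.sum_le_sum fun j _ => mul_le_mul_of_nonneg_right (hv j) (ee_pos _ _).le)
    · have : ∑ k ∈ Icc 1 M, ‖rc (Y / L : ℝ) ((Y / L : ℝ) + I * (ab / L : ℝ)) k‖ *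
          ee (1 + 1 / L) k ≤ 3 := by
        refine le_trans (Finset.sum_le_sum fun k hk => ?_) (gsum4 hY hL h0 h1 M)
        rw [ee_add, ee_one (by have := (mem_Icc.1 hk).1; omega), ← mul_assoc, mul_one_div]
        exact mul_le_of_le_one_right (by positivity) (ee_le_one (by positivity) k)
      nlinarith
  · have hW0 : 0 ≤ W := (Finset.sum_nonneg fun n _ =>
      div_nonneg (phi_nonneg h hy n) (Nat.cast_nonneg _)).trans (hW 1 one_pos)
    have cg : ∀ (S : Finset ℕ) (f : ℕ → ℝ), S ⊆ Icc 1 M →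
        ∑ n ∈ S, f n * ee 1 n = ∑ n ∈ S, f n / n := fun S f hS =>
      Finset.sum_congr rfl fun n hn => by
        rw [ee_one (by have := (mem_Icc.1 (hS hn)).1; omega), mul_one_div]
    rw [← cg _ _ (win_sub M x τ)]
    simp only [fact h]
    refine (cv_sum _ _ _ _ M (win_sub M x τ) W fun k hk => ?_).trans ?_
    · have hk0 : (0 : ℝ) < k := by exact_mod_cast (mem_Icc.1 hk).1
      refine le_trans ?_ (hW (x / k) (by positivity))
      rw [cg _ _ (Finset.filter_subset _ _)]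
      refine le_trans (Finset.sum_le_sum_of_subset_of_nonneg (t := win M (x / k) τ)
        (fun j hj => ?_) fun _ _ _ => by positivity)
        (Finset.sum_le_sum fun j _ => div_le_div_of_nonneg_right (hv j) (Nat.cast_nonneg _))
      simp only [mem_filter, mem_Icc] at hj
      exact mem_win hk hj.1.1 hj.1.2 hj.2
    · rw [cg _ _ (Finset.Subset.refl _)]
      exact mul_le_mul_of_nonneg_right (gsum4 hY hL h0 h1 M) hW0

theorem part4s {L Y ab : ℝ} (hY : 7 ≤ Y) (hL : Y ^ 2 ≤ L) (h0 : 0 ≤ ab) (h1 : ab ≤ 4) :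
    (Summable fun n : ℕ => ‖cc Y ab L n‖ * Real.exp (-(1 + 1 / L) * Real.log n)) ∧
    ∑' n : ℕ, ‖cc Y ab L n‖ * Real.exp (-(1 + 1 / L) * Real.log n) ≤ 12 * Y := by
  have h := H88.ar1
  have a1 := (part4w hY hL h0 h1).1
  have hL0 : 0 < L := by nlinarith
  have nn : ∀ n : ℕ, 0 ≤ ‖cc Y ab L n‖ * Real.exp (-(1 + 1 / L) * Real.log n) :=
    fun n => by positivity
  have hb : ∀ M : ℕ, ∑ n ∈ range M, ‖cc Y ab L n‖ * Real.exp (-(1 + 1 / L) * Real.log n) ≤
      12 * Y := by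
    intro M
    refine le_trans ?_ (a1 M)
    rw [← Finset.sum_filter_of_ne (p := fun n => n ≠ 0) (fun n _ hn => by
      rintro rfl
      unfold cc at hn
      rw [(h.2.2.2.1 _ _).1] at hn
      simp at hn)]
    refine le_trans (Finset.sum_le_sum_of_subset_of_nonneg (fun n hn => ?_) fun n _ _ => nn n)
      (Finset.sum_le_sum fun n _ => mul_le_mul_of_nonneg_right
        (cc_norm h (by positivity) ab n) (Real.exp_pos _).le)
    simp only [mem_filter, mem_range, mem_Icc] at hn ⊢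
    omega
  exact ⟨summable_of_sum_range_le nn hb, Real.tsum_le_of_sum_range_le nn hb⟩

/-! ### The limit -/

/-- The weight in the Tauberian step. -/
noncomputable def pw (Y v : ℝ) : ℝ := ph (1 / Y) v * Real.exp (-(2 * v / Y))

theorem pw_cont (Y : ℝ) : Continuous (pw Y) := by
  have := ph_cont (1 / Y)
  unfold pw
  fun_prop

theorem ex_le {Y v : ℝ} (hY : 0 < Y) (hv : 0 ≤ v) : Real.exp (-(2 * v / Y)) ≤ 1 := by
  rw [Real.exp_le_one_iff, neg_nonpos]
  positivity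

theorem pw_mem {Y v : ℝ} (hY : 0 < Y) (hv : 0 ≤ v) : 0 ≤ pw Y v ∧ pw Y v ≤ 1 :=
  ⟨mul_nonneg (ph_nonneg _ _) (Real.exp_pos _).le,
    mul_le_one₀ (ph_le _ _) (Real.exp_pos _).le (ex_le hY hv)⟩

theorem main_eq {Y ab : ℝ} (hab : 0 < ab) :
    (exp (-I * (ab / 2 : ℝ)) * ((Y / 2 : ℂ) *
      ((exp (-(I * ab) * (1 : ℝ)) - 1) / (-(I * ab))))).im =
      Y / (2 * ab) * (Real.cos (3 * ab / 2) - Real.cos (ab / 2)) := by
  have hab' : (ab : ℂ) ≠ 0 := by exact_mod_cast hab.ne'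
  have key : exp (-I * (ab / 2 : ℝ)) * ((Y / 2 : ℂ) *
      ((exp (-(I * ab) * (1 : ℝ)) - 1) / (-(I * ab)))) =
      ((Y / (2 * ab) : ℝ) : ℂ) * (I * (exp (((-(3 * ab / 2) : ℝ) : ℂ) * I) -
        exp (((-(ab / 2) : ℝ) : ℂ) * I))) := by
    have : exp (((-(3 * ab / 2) : ℝ) : ℂ) * I) =
        exp (-I * (ab / 2 : ℝ)) * exp (-(I * ab) * (1 : ℝ)) := by
      rw [← Complex.exp_add]; congr 1; push_cast; ring
    rw [this]
    have : exp (((-(ab / 2) : ℝ) : ℂ) * I) = exp (-I * (ab / 2 : ℝ)) := by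
      congr 1; push_cast; ring
    rw [this]
    have hI : (I : ℂ) ≠ 0 := I_ne_zero
    generalize exp (-(I * ab) * (1 : ℝ)) = E
    push_cast
    field_simp
    linear_combination (-(Y : ℂ) * (E - 1)) * I_mul_I
  rw [key, Complex.im_ofReal_mul, Complex.mul_im]
  simp only [Complex.I_re, Complex.I_im, zero_mul, one_mul, zero_add, Complex.sub_re,
    Complex.exp_ofReal_mul_I_re, Real.cos_neg]

theorem limit_near {Y ab : ℝ} (hY : 7 ≤ Y) (hab : 0 < ab) :
    ‖(Y / 2 : ℂ) * ((exp (-(I * ab) * (1 : ℝ)) - 1) / (-(I * ab))) -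
      ((pw Y 0 : ℝ) + ∫ v in Set.Ioi (0 : ℝ), gg Y ab v * (pw Y v : ℝ))‖ ≤ 9 := by
  have hY0 : 0 < Y := by linarith
  have e0 : 0 < 1 / Y := by positivity
  have he1 : 1 / Y ≤ 1 := by rw [div_le_one hY0]; linarith
  have hab' : (ab : ℂ) ≠ 0 := by exact_mod_cast hab.ne'
  have hY' : (Y : ℂ) ≠ 0 := by exact_mod_cast hY0.ne'
  have hc : Continuous fun v : ℝ => gg Y ab v * (pw Y v : ℝ) :=
    (gg_cont Y ab).mul (Complex.continuous_ofReal.comp (pw_cont Y))
  have hd : Continuous fun v : ℝ => gg Y ab v - gg Y ab v * (pw Y v : ℝ) := (gg_cont Y ab).sub hc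
  have i1 : ∫ v in Set.Ioi (0 : ℝ), gg Y ab v * (pw Y v : ℝ) =
      ∫ v in (0 : ℝ)..1, gg Y ab v * (pw Y v : ℝ) := by
    rw [intervalIntegral.integral_of_le zero_le_one]
    refine setIntegral_eq_of_subset_of_forall_sdiff_eq_zero measurableSet_Ioi
      Set.Ioc_subset_Ioi_self ?_
    intro x hx
    have hx1 : 1 < x := by
      by_contra h
      exact hx.2 ⟨hx.1, not_lt.1 h⟩
    rw [pw, ph_zero e0 (by linarith)]; simp
  have hn : ∀ x, 0 ≤ x → ‖gg Y ab x - gg Y ab x * (pw Y x : ℝ)‖ ≤ 2 * Y * (1 - pw Y x) := by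
    intro x hx
    have h1 := pw_mem hY0 hx
    rw [← mul_one_sub, norm_mul, ← Complex.ofReal_one, ← Complex.ofReal_sub, Complex.norm_real,
      Real.norm_of_nonneg (by linarith)]
    exact mul_le_mul_of_nonneg_right (gg_norm hY0 ab x hx) (by linarith)
  have i2 := intervalIntegral.integral_add_adjacent_intervals (μ := volume)
    (hd.intervalIntegrable 0 (1 - 1 / Y)) (hd.intervalIntegrable (1 - 1 / Y) 1)
  have i3 : ‖∫ v in (1 - 1 / Y)..1, (gg Y ab v - gg Y ab v * (pw Y v : ℝ))‖ ≤ 2 := by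
    have := intervalIntegral.norm_integral_le_of_norm_le_const (a := 1 - 1 / Y) (b := 1)
      (C := 2 * Y) (f := fun v : ℝ => gg Y ab v - gg Y ab v * (pw Y v : ℝ)) (by
        intro x hx
        rw [Set.uIoc_of_le (by linarith)] at hx
        have hx0 : 0 ≤ x := by linarith [hx.1]
        have h1 := pw_mem hY0 hx0
        exact (hn x hx0).trans (by nlinarith))
    rw [show (1 : ℝ) - (1 - 1 / Y) = 1 / Y by ring, abs_of_pos e0] at this
    refine this.trans (le_of_eq ?_)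
    field_simp
  have i4 : ‖∫ v in (0 : ℝ)..(1 - 1 / Y), (gg Y ab v - gg Y ab v * (pw Y v : ℝ))‖ ≤ 4 := by
    have := intervalIntegral.norm_integral_le_of_norm_le_const (a := 0) (b := 1 - 1 / Y)
      (C := 4) (f := fun v : ℝ => gg Y ab v - gg Y ab v * (pw Y v : ℝ)) (by
        intro x hx
        rw [Set.uIoc_of_le (by linarith)] at hx
        refine (hn x hx.1.le).trans ?_
        rw [pw, ph_one e0 hx.2, one_mul]
        have h1 := Real.add_one_le_exp (-(2 * x / Y))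
        have h2 : 2 * Y * (2 * x / Y) = 4 * x := by field_simp; ring
        nlinarith [hx.2])
    rw [sub_zero, abs_of_nonneg (by linarith)] at this
    linarith
  have n1 : (-(I * ab) : ℂ) ≠ 0 := neg_ne_zero.2 (mul_ne_zero I_ne_zero hab')
  have n2 : (-(2 * Y) : ℂ) ≠ 0 := neg_ne_zero.2 (mul_ne_zero two_ne_zero hY')
  have i5 : ∫ v in (0 : ℝ)..1, gg Y ab v =
      be Y ab * ((exp (-(I * ab) * (1 : ℝ)) - 1) / (-(I * ab)) -
        (exp (-(2 * Y) * (1 : ℝ)) - 1) / (-(2 * Y))) := by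
    unfold gg
    rw [intervalIntegral.integral_const_mul, intervalIntegral.integral_sub
      (Continuous.intervalIntegrable (by fun_prop) _ _)
      (Continuous.intervalIntegrable (by fun_prop) _ _),
      integral_exp_mul_complex n1, integral_exp_mul_complex n2]
    simp
  rw [intervalIntegral.integral_sub ((gg_cont Y ab).intervalIntegrable 0 1)
    (hc.intervalIntegrable 0 1), i5, ← i1] at i2
  set E1 : ℂ := exp (-(I * ab) * (1 : ℝ)) - 1 with hE1
  set E2 : ℂ := exp (-(2 * Y) * (1 : ℝ)) - 1 with hE2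
  have b1 : ‖E1‖ ≤ 2 := by
    have := norm_sub_le (exp (-(I * ab) * (1 : ℝ))) 1
    rw [e1_norm, norm_one] at this
    linarith
  have b2 : ‖E2‖ ≤ 2 := by
    have := norm_sub_le (exp (-(2 * Y) * (1 : ℝ))) 1
    have h3 := e2_norm hY0 zero_le_one
    rw [norm_one] at this
    linarith
  have n3 := den_ne hY0 ab
  have b3 : ‖be Y ab * (E2 / (-(2 * Y)))‖ ≤ 1 := by
    rw [norm_mul, norm_div, norm_neg, norm_mul, Complex.norm_real, Real.norm_of_nonneg hY0.le,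
      Complex.norm_two]
    calc _ ≤ Y * (2 / (2 * Y)) := mul_le_mul (be_norm hY0 ab) (by gcongr) (by positivity) hY0.le
      _ = 1 := by field_simp
  have b4 : ‖(be Y ab - Y / 2) * (E1 / (-(I * ab)))‖ ≤ 1 / 2 := by
    have : (be Y ab - Y / 2) * (E1 / (-(I * ab))) = (Y / 2 : ℂ) * E1 / (2 * Y - I * ab) := by
      rw [eq_div_iff n3]
      have h5 : E1 / (-(I * ab)) * (-(I * ab)) = E1 := div_mul_cancel₀ _ n1
      linear_combination E1 / (-(I * ab)) * be_mul hY0 ab + (Y / 2 : ℂ) * h5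
    rw [this, norm_div, norm_mul, norm_div, Complex.norm_real, Real.norm_of_nonneg hY0.le,
      Complex.norm_two, div_le_iff₀ (norm_pos_iff.2 n3)]
    have := den_norm Y ab
    nlinarith
  have b5 : ‖((pw Y 0 : ℝ) : ℂ)‖ ≤ 1 := by
    have := pw_mem hY0 le_rfl
    rw [Complex.norm_real, Real.norm_of_nonneg this.1]
    exact this.2
  generalize (∫ v in (1 - 1 / Y)..1, (gg Y ab v - gg Y ab v * (pw Y v : ℝ))) = R1 at i2 i3
  generalize (∫ v in (0 : ℝ)..(1 - 1 / Y), (gg Y ab v - gg Y ab v * (pw Y v : ℝ))) = R2 at i2 i4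
  generalize (∫ v in Set.Ioi (0 : ℝ), gg Y ab v * (pw Y v : ℝ)) = R3 at i2
  have : (Y / 2 : ℂ) * (E1 / (-(I * ab))) - ((pw Y 0 : ℝ) + R3) =
      (R2 + R1) + (be Y ab * (E2 / (-(2 * Y))) - (be Y ab - Y / 2) * (E1 / (-(I * ab))) -
        (pw Y 0 : ℝ)) := by
    rw [i2]; ring
  rw [this]
  refine (norm_add_le _ _).trans ?_
  have t1 := norm_add_le R2 R1
  have t2 := norm_sub_le (be Y ab * (E2 / (-(2 * Y))) - (be Y ab - Y / 2) * (E1 / (-(I * ab))))
    ((pw Y 0 : ℝ) : ℂ)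
  have t3 := norm_sub_le (be Y ab * (E2 / (-(2 * Y)))) ((be Y ab - Y / 2) * (E1 / (-(I * ab))))
  linarith

/-! ### The truncated sums -/

theorem top_eq {e T : ℝ} (hT : 0 < T) : T ^ (1 - e) * Real.exp (e * Real.log T) = T := by
  rw [Real.rpow_def_of_pos hT, ← Real.exp_add]
  calc _ = Real.exp (Real.log T) := by congr 1; ring
    _ = T := Real.exp_log hT

theorem sharp4 (c : ℕ → ℂ) {e T W : ℝ} (he : 0 < e) (hT : 1 < T)
    (hW : ∑ n ∈ win ⌊T⌋₊ (T ^ (1 - e)) (e * Real.log T), ‖c n‖ / n ≤ W) :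
    ‖∑ n ∈ Icc 1 ⌊T ^ (1 - e)⌋₊, c n / n -
      ∑' n : ℕ, c n * (ph e (Real.log n / Real.log T) / n : ℝ)‖ ≤ W := by
  have hL : 0 < Real.log T := Real.log_pos hT
  have hT0 : 0 < T := by linarith
  have hx : 0 < T ^ (1 - e) := Real.rpow_pos_of_pos hT0 _
  have hlx : Real.log (T ^ (1 - e)) = (1 - e) * Real.log T := Real.log_rpow hT0 _
  have hz : ∀ n : ℕ, T < n → ph e (Real.log n / Real.log T) = 0 := by
    intro n h
    refine ph_zero he ?_
    rw [le_div_iff₀ hL]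
    have := Real.log_le_log hT0 h.le
    nlinarith
  set A := Icc 1 ⌊T ^ (1 - e)⌋₊ with hA
  set B := win ⌊T⌋₊ (T ^ (1 - e)) (e * Real.log T) with hB
  have hd : Disjoint A B := by
    rw [Finset.disjoint_left]
    intro n ha hb
    rw [hA, Finset.mem_Icc, Nat.le_floor_iff hx.le] at ha
    rw [hB, win, Finset.mem_filter] at hb
    linarith [ha.2, hb.2.1]
  rw [tsum_eq_sum (s := A ∪ B), Finset.sum_union hd]
  · have e1 : ∑ n ∈ A, c n * (ph e (Real.log n / Real.log T) / n : ℝ) = ∑ n ∈ A, c n / n := by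
      refine Finset.sum_congr rfl fun n hn => ?_
      rw [hA, Finset.mem_Icc, Nat.le_floor_iff hx.le] at hn
      have hn0 : (0 : ℝ) < n := by exact_mod_cast hn.1
      rw [ph_one he]
      · push_cast; ring
      · rw [div_le_iff₀ hL, ← hlx]
        exact Real.log_le_log hn0 hn.2
    rw [e1, sub_add_cancel_left, norm_neg]
    refine (norm_sum_le _ _).trans ((Finset.sum_le_sum fun n hn => ?_).trans hW)
    rw [norm_mul, Complex.norm_real,
      Real.norm_of_nonneg (div_nonneg (ph_nonneg _ _) (Nat.cast_nonneg n)), ← mul_div_assoc]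
    exact div_le_div_of_nonneg_right (mul_le_of_le_one_right (norm_nonneg _) (ph_le _ _))
      (Nat.cast_nonneg n)
  · intro n hn
    rcases Nat.eq_zero_or_pos n with rfl | hn0
    · simp
    rw [Finset.mem_union, not_or, hA, hB, win, Finset.mem_filter, Finset.mem_Icc, Finset.mem_Icc,
      Nat.le_floor_iff hx.le, Nat.le_floor_iff hT0.le, top_eq hT0] at hn
    rw [hz n]
    · simp
    by_contra hc
    rw [not_lt] at hc
    refine hn.2 ⟨⟨hn0, hc⟩, ?_, hc⟩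
    by_contra hc2
    exact hn.1 ⟨hn0, not_lt.1 hc2⟩

theorem wt_eq (Y L : ℝ) {n : ℕ} (hn : 1 ≤ n) : Real.exp (-(1 + 2 / (Y * L)) * Real.log n) =
    Real.exp (-(2 * (Real.log n / L) / Y)) / n := by
  have h0 : (0 : ℝ) < n := by exact_mod_cast hn
  rw [eq_div_iff h0.ne']
  nth_rewrite 2 [← Real.exp_log h0]
  rw [← Real.exp_add]
  congr 1
  ring

theorem wt_le {Y L : ℝ} (hY : 0 < Y) (hL : 0 < L) {n : ℕ} (hn : 1 ≤ n) :
    Real.exp (-(1 + 2 / (Y * L)) * Real.log n) ≤ 1 / n := by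
  rw [wt_eq Y L hn]
  exact div_le_div_of_nonneg_right (ex_le hY (div_nonneg (Real.log_natCast_nonneg n) hL.le))
    (Nat.cast_nonneg n)

theorem r_le {y : ℝ} (hy : 0 ≤ y) (n : ℕ) : ‖rc y 0 n‖ ≤ 1 :=
  (H88.ar1.2.2.2.2.1 y n hy).1.trans (H88.ar1.2.2.2.2.1 y n hy).2.1

section
variable {T Y X ab : ℝ} {χ : ℕ → ℂ}

theorem cf_le (hY : 0 < Y) (hL : 0 < Real.log T) (hχ : Cut T Y X χ) (n : ℕ) :
    ‖cf T Y χ n‖ ≤ X := by
  rw [cf, norm_mul]
  exact (mul_le_of_le_one_left (norm_nonneg _) (r_le (by positivity) n)).trans (hχ.bd n)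

theorem cf_sq (hY : 0 < Y) (hL : 0 < Real.log T) (hχ : Cut T Y X χ) (n : ℕ) :
    ‖cf T Y χ n‖ ^ 2 ≤ X ^ 2 * (rc 0 (Y / Real.log T : ℝ) n).re := by
  obtain ⟨a1, a2, -⟩ := H88.ar1.2.2.2.2.1 (Y / Real.log T) n (by positivity)
  rw [cf, norm_mul, mul_pow, mul_comm]
  refine mul_le_mul (pow_le_pow_left₀ (norm_nonneg _) (hχ.bd n) 2) ?_ (by positivity)
    (by positivity)
  nlinarith [norm_nonneg (rc (Y / Real.log T : ℝ) 0 n)]

theorem low_term (hY : 7 ≤ Y) (h0 : 0 ≤ ab) (h1 : ab ≤ 4) (hX : 1 ≤ X) (hT : 1 < T)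
    (hL : 1 ≤ Real.log T) (hχ : Cut T Y X χ) {n : ℕ} (hn : n ∈ Icc 1 ⌊T ^ (1 - 1 / Y)⌋₊) :
    ‖cv (rc 0 (I * (ab / Real.log T : ℝ))) (cut (cf T Y χ) (len T Y)) n *
      (starRingEnd ℂ) (cf T Y χ n) - cc Y ab (Real.log T) n‖ ≤ 2 * Real.exp 4 * X / T ^ 2 := by
  have hY0 : 0 < Y := by linarith
  have hT0 : 0 < T := by linarith
  have hx : 0 < T ^ (1 - 1 / Y) := Real.rpow_pos_of_pos hT0 _
  have hy : 0 ≤ Y / Real.log T := by positivity
  obtain ⟨hn1, hn2⟩ := mem_Icc.1 hn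
  have hlog : ∀ j : ℕ, 1 ≤ j → j ≤ n → Real.log j ≤ (1 - 1 / Y) * Real.log T := fun j h2 h3 => by
    rw [← Real.log_rpow hT0]
    exact Real.log_le_log (by exact_mod_cast h2) ((Nat.le_floor_iff hx.le).1 (h3.trans hn2))
  have hN : n ≤ len T Y := by
    refine hn2.trans (Nat.floor_le_floor (Real.rpow_le_rpow_of_exponent_le hT.le ?_))
    have : 1 / (4 * Y) ≤ 1 / Y := one_div_le_one_div_of_le hY0 (by linarith)
    linarith
  have hd : ∀ j : ℕ, 1 ≤ j → j ≤ n → ‖cf T Y χ j - rc (Y / Real.log T : ℝ) 0 j‖ ≤ 1 / T ^ 2 :=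
    fun j h2 h3 => by
      rw [cf, ← mul_sub_one, norm_mul]
      exact (mul_le_of_le_one_left (norm_nonneg _) (r_le hy j)).trans (hχ.one j h2 (hlog j h2 h3))
  have hnL : Real.log n ≤ Real.log T := by
    refine (hlog n hn1 le_rfl).trans ?_
    have : 0 < 1 / Y := by positivity
    nlinarith
  have a1 : ‖cv (rc 0 (I * (ab / Real.log T : ℝ))) (cut (cf T Y χ) (len T Y)) n -
      rc (Y / Real.log T : ℝ) (I * (ab / Real.log T : ℝ)) n‖ ≤ Real.exp 4 * (1 / T ^ 2) := by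
    refine le_trans (le_of_eq ?_) (cv_le (r := fun j => cut (cf T Y χ) (len T Y) j -
      rc (Y / Real.log T : ℝ) 0 j) hL h0 h1 hnL le_rfl (by positivity) fun j h2 h3 => ?_)
    · rw [← H88.ar1.1 0 (I * (ab / Real.log T : ℝ)) (Y / Real.log T : ℝ), cv_apply, cv_apply,
        cv_apply, ← Finset.sum_sub_distrib]
      simp only [mul_sub]
    · rw [cut, if_pos (h3.trans hN)]
      exact hd j h2 h3
  have a2 : ‖rc (Y / Real.log T : ℝ) (I * (ab / Real.log T : ℝ)) n‖ ≤ Real.exp 4 * 1 := by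
    rw [← H88.ar1.1 0 (I * (ab / Real.log T : ℝ)) (Y / Real.log T : ℝ)]
    exact cv_le hL h0 h1 hnL le_rfl zero_le_one fun j _ _ => r_le hy j
  have a3 := hd n hn1 le_rfl
  have a4 := cf_le hY0 (by linarith) hχ n
  unfold cc
  generalize cv (rc 0 (I * (ab / Real.log T : ℝ))) (cut (cf T Y χ) (len T Y)) n = P at a1 ⊢
  generalize rc (Y / Real.log T : ℝ) (I * (ab / Real.log T : ℝ)) n = P' at a1 a2 ⊢
  generalize rc (Y / Real.log T : ℝ) 0 n = Q' at a3 ⊢
  generalize cf T Y χ n = Q at a3 a4 ⊢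
  have e : P * (starRingEnd ℂ) Q - P' * (starRingEnd ℂ) Q' =
      (P - P') * (starRingEnd ℂ) Q + P' * (starRingEnd ℂ) (Q - Q') := by
    rw [map_sub]; ring
  rw [e]
  refine (norm_add_le _ _).trans ?_
  rw [norm_mul, norm_mul, Complex.norm_conj, Complex.norm_conj]
  have b1 := mul_le_mul a1 a4 (norm_nonneg _) (by positivity)
  have b2 := mul_le_mul a2 a3 (norm_nonneg _) (by positivity)
  have b3 : Real.exp 4 * (1 / T ^ 2) * 1 ≤ Real.exp 4 * (1 / T ^ 2) * X :=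
    mul_le_mul_of_nonneg_left hX (by positivity)
  have b4 : 2 * Real.exp 4 * X / T ^ 2 = 2 * (Real.exp 4 * (1 / T ^ 2) * X) := by ring
  linarith

theorem trunc (hY : 7 ≤ Y) (h0 : 0 ≤ ab) (h1 : ab ≤ 4) (hX : 1 ≤ X) (hT : 1 < T)
    (hL : 1 ≤ Real.log T) (hχ : Cut T Y X χ)
    (hm : ∀ (M : ℕ) (x : ℝ), Real.log M ≤ Real.log T → 0 < x →
      ∑ n ∈ win M x (1 / Y * Real.log T), (rc 0 (Y / Real.log T : ℝ) n).re / n ≤ 8) :
    ‖∑ n ∈ Icc 1 (len T Y), cv (rc 0 (I * (ab / Real.log T : ℝ))) (cut (cf T Y χ) (len T Y)) n *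
        (starRingEnd ℂ) (cf T Y χ n) *
        (Real.exp (-(1 + 2 / (Y * Real.log T)) * Real.log n) : ℝ) -
      ∑ n ∈ Icc 1 ⌊T ^ (1 - 1 / Y)⌋₊, cc Y ab (Real.log T) n *
        (Real.exp (-(2 * (Real.log n / Real.log T) / Y)) : ℝ) / n‖ ≤
      2 * Real.exp 4 * X + (Real.exp 4 * (Real.exp 7 * 10 * (X ^ 2 * 8)) + X ^ 2 * 8) / 2 := by
  have hY0 : 0 < Y := by linarith
  have hT0 : 0 < T := by linarith
  have hL0 : 0 < Real.log T := by linarith
  have hx : 0 < T ^ (1 - 1 / Y) := Real.rpow_pos_of_pos hT0 _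
  have hN0 : ⌊T ^ (1 - 1 / Y)⌋₊ ≤ len T Y := by
    refine Nat.floor_le_floor (Real.rpow_le_rpow_of_exponent_le hT.le ?_)
    have : 1 / (4 * Y) ≤ 1 / Y := one_div_le_one_div_of_le hY0 (by linarith)
    linarith
  have hN1 : len T Y ≤ ⌊T⌋₊ := by
    refine Nat.floor_le_floor ?_
    calc _ ≤ T ^ (1 : ℝ) := Real.rpow_le_rpow_of_exponent_le hT.le (sub_le_self _ (by positivity))
      _ = T := Real.rpow_one T
  have hfl : ∀ M : ℕ, M ≤ ⌊T⌋₊ → Real.log M ≤ Real.log T := fun M hM => by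
    rcases Nat.eq_zero_or_pos M with rfl | h
    · simpa using hL0.le
    · exact Real.log_le_log (by exact_mod_cast h) ((Nat.le_floor_iff hT0.le).1 hM)
  have hQ : ∀ M : ℕ, M ≤ ⌊T⌋₊ → ∀ x : ℝ, 0 < x →
      ∑ n ∈ win M x (1 / Y * Real.log T), ‖cf T Y χ n‖ ^ 2 / n ≤ X ^ 2 * 8 := fun M hM x hx => by
    refine le_trans ?_ (mul_le_mul_of_nonneg_left (hm M x (hfl M hM) hx) (sq_nonneg X))
    rw [Finset.mul_sum]
    refine Finset.sum_le_sum fun n _ => ?_
    rw [← mul_div_assoc]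
    exact div_le_div_of_nonneg_right (cf_sq hY0 hL0 hχ n) (Nat.cast_nonneg n)
  have hP := part3w (M := ⌊T⌋₊) hL h0 h1 (hfl _ le_rfl) (hQ _ hN1) hx
  have hQ' := hQ _ le_rfl _ hx
  rw [← Finset.sum_sdiff (Finset.Icc_subset_Icc_right hN0), add_sub_assoc,
    ← Finset.sum_sub_distrib, add_comm]
  refine (norm_add_le _ _).trans (add_le_add ?_ ?_)
  · refine (norm_sum_le _ _).trans ((Finset.sum_le_card_nsmul _ _
      (2 * Real.exp 4 * X / T ^ 2) fun n hn => ?_).trans ?_)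
    · have hn1 := (mem_Icc.1 hn).1
      have hw := wt_le hY0 hL0 hn1
      rw [mul_div_assoc, ← Complex.ofReal_natCast, ← Complex.ofReal_div, ← wt_eq _ _ hn1, ← sub_mul,
        norm_mul, Complex.norm_real, Real.norm_of_nonneg (Real.exp_pos _).le]
      refine (mul_le_of_le_one_right (norm_nonneg _) (hw.trans ?_)).trans
        (low_term hY h0 h1 hX hT hL hχ hn)
      rw [div_le_one (by exact_mod_cast hn1)]
      exact_mod_cast hn1
    · rw [Nat.card_Icc, Nat.add_sub_cancel, nsmul_eq_mul, ← mul_div_assoc,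
        div_le_iff₀ (by positivity), mul_comm]
      refine mul_le_mul_of_nonneg_left ?_ (by positivity)
      have : ((⌊T ^ (1 - 1 / Y)⌋₊ : ℕ) : ℝ) ≤ T := (Nat.le_floor_iff hT0.le).1 (hN0.trans hN1)
      nlinarith
  · refine (norm_sum_le _ _).trans (le_trans ?_ (div_le_div_of_nonneg_right (add_le_add hP hQ')
      zero_le_two))
    rw [← Finset.sum_add_distrib, Finset.sum_div]
    refine le_trans (Finset.sum_le_sum fun n hn => ?_)
      (Finset.sum_le_sum_of_subset_of_nonneg (fun n hn => ?_) fun _ _ _ => by positivity)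
    · have hn1 := (mem_Icc.1 (Finset.mem_sdiff.1 hn).1).1
      rw [norm_mul, norm_mul, Complex.norm_conj, Complex.norm_real,
        Real.norm_of_nonneg (Real.exp_pos _).le]
      refine (mul_le_mul_of_nonneg_left (wt_le hY0 hL0 hn1) (by positivity)).trans ?_
      rw [← add_div, div_right_comm, mul_one_div]
      refine div_le_div_of_nonneg_right ?_ (Nat.cast_nonneg n)
      nlinarith [sq_nonneg (‖cv (rc 0 (I * (ab / Real.log T : ℝ))) (cut (cf T Y χ) (len T Y)) n‖ -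
        ‖cf T Y χ n‖)]
    · obtain ⟨a1, a2⟩ := Finset.mem_sdiff.1 hn
      obtain ⟨a3, a4⟩ := mem_Icc.1 a1
      rw [mem_Icc, Nat.le_floor_iff hx.le, not_and, not_le] at a2
      rw [win, mem_filter, mem_Icc, top_eq hT0]
      exact ⟨⟨a3, a4.trans hN1⟩, a2 a3, (Nat.le_floor_iff hT0.le).1 (a4.trans hN1)⟩

end

theorem s2 : S2Stmt := by
  have p1 : 1 ≤ Real.exp 4 := Real.one_le_exp (by norm_num)
  have p2 : 1 ≤ Real.exp 7 := Real.one_le_exp (by norm_num)
  have p3 : Real.exp 4 ≤ Real.exp 4 * Real.exp 7 := le_mul_of_one_le_right (by linarith) p2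
  refine ⟨80 * (Real.exp 4 * Real.exp 7), by linarith, fun Y ab X hY a0 a1 hX => ?_⟩
  have hY0 : 0 < Y := by linarith
  have e0 : 0 < 1 / Y := by positivity
  have hab : (0 : ℝ) < ab := by linarith
  have hk := H62.kar (cc Y ab) (gg Y ab) (2 * Y) (12 * Y) (gg_cont Y ab) (gg_norm hY0 ab)
    (fun L => by unfold cc; rw [(H88.ar1.2.2.2.1 _ _).1, zero_mul])
    (fun k hk => by
      have hk0 : (0 : ℝ) < k := by exact_mod_cast hk
      rw [laplace hY0 ab k hk0]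
      exact H1.rl H88.ar1 Y ab k hY0 hk0)
    (by
      filter_upwards [eventually_ge_atTop (Y ^ 2)] with L hL
      exact part4s hY hL hab.le a1)
    (pw Y) (1 - 1 / Y / 2) (pw_cont Y) (fun v hv => by rw [pw, ph_zero e0 hv, zero_mul])
  have hk2 := (Metric.tendsto_nhds.1 hk) 1 one_pos
  have hm := H62.m1 H88.ar1 H62.kar Y (1 / Y) (by linarith) e0 (by rw [mul_one_div_cancel hY0.ne'])
  have hall := (hk2.and hm).and (eventually_ge_atTop (Y ^ 2))
  filter_upwards [Real.tendsto_log_atTop.eventually hall, eventually_gt_atTop (1 : ℝ)]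
    with T hT hT1 χ hχ
  obtain ⟨⟨k1, k2⟩, k3⟩ := hT
  have hT0 : 0 < T := by linarith
  have hL : 1 ≤ Real.log T := by nlinarith
  have hfl : Real.log (⌊T⌋₊ : ℕ) ≤ Real.log T :=
    Real.log_le_log (by exact_mod_cast Nat.floor_pos.2 hT1.le) (Nat.floor_le hT0.le)
  refine ⟨fun n hn => ?_, ?_⟩
  · refine (cv_le hL hab.le a1 hfl ((Nat.le_floor_iff hT0.le).2 hn) (X := X) (by linarith)
      fun j _ _ => ?_).trans (mul_le_mul_of_nonneg_right (by linarith) (by linarith))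
    unfold cut
    split_ifs
    · exact cf_le hY0 (by linarith) hχ j
    · rw [norm_zero]; linarith
  have hW := (part4w hY k3 hab.le a1).2 ⌊T⌋₊ 8 (1 / Y * Real.log T)
    (fun x hx => k2 _ x hfl hx) (T ^ (1 - 1 / Y)) (Real.rpow_pos_of_pos hT0 _)
  have hs := sharp4 (fun n => cc Y ab (Real.log T) n *
    (Real.exp (-(2 * (Real.log n / Real.log T) / Y)) : ℝ)) e0 hT1 (W := 3 * 8) (by
      refine le_trans (Finset.sum_le_sum fun n _ => ?_) hW
      refine div_le_div_of_nonneg_right ?_ (Nat.cast_nonneg n)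
      rw [norm_mul, Complex.norm_real, Real.norm_of_nonneg (Real.exp_pos _).le]
      exact (mul_le_of_le_one_right (norm_nonneg _) (ex_le hY0
        (div_nonneg (Real.log_natCast_nonneg n) (by linarith)))).trans
        (cc_norm H88.ar1 (by positivity) ab n))
  have he : ∀ n : ℕ, cc Y ab (Real.log T) n *
      (Real.exp (-(2 * (Real.log n / Real.log T) / Y)) : ℝ) *
      (ph (1 / Y) (Real.log n / Real.log T) / n : ℝ) =
      cc Y ab (Real.log T) n * (pw Y (Real.log n / Real.log T) / n : ℝ) := fun n => by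
    rw [mul_assoc, ← Complex.ofReal_mul, pw]
    congr 2
    ring
  simp only [he] at hs
  rw [dist_eq_norm] at k1
  have t0 := im_le ab _ _ _ (trunc hY hab.le a1 hX hT1 hL hχ k2)
  have t1 := im_le ab _ _ _ hs
  have t2 := im_le ab _ _ _ k1.le
  have t3 := im_le ab _ _ _ ((norm_sub_rev _ _).trans_le (limit_near hY hab))
  rw [main_eq hab] at t3
  have q1 : X ≤ X ^ 2 := by nlinarith
  have q2 : Real.exp 4 * X ≤ Real.exp 4 * Real.exp 7 * X ^ 2 :=
    mul_le_mul p3 q1 (by linarith) (by linarith)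
  have q3 : X ^ 2 ≤ Real.exp 4 * Real.exp 7 * X ^ 2 :=
    le_mul_of_one_le_left (by positivity) (by linarith)
  linarith

end Pool.Agent.MP_ca0a54_nt.H9
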